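import Pool.Agent.Lib.MP_688fd0_co.TF.Compat

/-!
# Theorem F, module PSI1: `Psi = E1 + E2 + E3` and the bounds of `E1`, `E2`
-/

namespace Pool.Agent.Lib.MP_688fd0_co.TF.H63

open Pool.Agent.Lib.MP_688fd0_co.TE

universe u

section

variable {G : Type u} [Group G] [Fintype G] [DecidableEq G]

theorem X_ge (c : Ctx G) : (10 ^ 6 : ℝ) ≤ c.X := by
  have h := c.hX
  have h1 : 1 ≤ 10 ^ 6 * c.T * c.k * (c.r0 + 1) := by
    have := c.hT1
    have := c.hk1
    have h2 : 0 < c.T * c.k := Nat.mul_pos (by omega) (by omega)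
    have : 0 < 10 ^ 6 * c.T * c.k * (c.r0 + 1) := by positivity
    omega
  have h2 : (10 ^ 6 : ℕ) ≤ 10 ^ 6 * c.T * c.k * (c.r0 + 1) := by
    have := c.hT1
    have := c.hk1
    have h3 : 1 ≤ c.T * c.k * (c.r0 + 1) := by
      have : 0 < c.T * c.k * (c.r0 + 1) := by positivity
      omega
    calc 10 ^ 6 = 10 ^ 6 * 1 := by ring
      _ ≤ 10 ^ 6 * (c.T * c.k * (c.r0 + 1)) := Nat.mul_le_mul_left _ h3
      _ = 10 ^ 6 * c.T * c.k * (c.r0 + 1) := by ring
  have h3 : (10 ^ 6 : ℝ) ≤ ((10 ^ 6 * c.T * c.k * (c.r0 + 1) : ℕ) : ℝ) := by exact_mod_cast h2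
  have h4 : (1 : ℝ) ≤ ((10 ^ 6 * c.T * c.k * (c.r0 + 1) : ℕ) : ℝ) := by exact_mod_cast h1
  exact (h3.trans (le_self_pow₀ h4 (by norm_num))).trans h

/-- the error terms -/
theorem numer (X m b8 bb : ℝ) (hX : 10 ^ 6 ≤ X) (hm0 : 0 ≤ m) (hm : m ≤ 2 * X ^ 1000)
    (hb : X ^ 25000 ≤ b8) (hbb : 0 ≤ bb) :
    2 / X ^ 100 * (X ^ 23 * bb) + (m * (1 / b8) + 3 * (1 / X ^ 1090)) * (m * X ^ 26 * bb) ≤
      1 / (2 * X ^ 50) * bb := by
  have h1 : (1 : ℝ) ≤ X := by linarith [show (1 : ℝ) ≤ 10 ^ 6 by norm_num]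
  have h0 : (0 : ℝ) < X := by linarith
  have hp : ∀ n : ℕ, (0 : ℝ) < X ^ n := fun n => pow_pos h0 n
  have pm : ∀ i j : ℕ, i ≤ j → X ^ i ≤ X ^ j := fun i j h => pow_le_pow_right₀ h1 h
  have e1 : 2 / X ^ 100 * X ^ 23 ≤ 2 / X ^ 51 := by
    rw [div_mul_eq_mul_div, div_le_div_iff₀ (hp _) (hp _)]
    have : X ^ 23 * X ^ 51 ≤ X ^ 100 := by
      rw [← pow_add]; exact pm _ _ (by norm_num)
    linarith
  have hb0 : 0 < b8 := lt_of_lt_of_le (hp _) hb
  have e2 : m * (1 / b8) ≤ 2 * X ^ 1000 / X ^ 25000 := by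
    rw [mul_one_div, div_le_div_iff₀ hb0 (hp _)]
    exact mul_le_mul hm hb (hp _).le (by positivity)
  have e3 : m * X ^ 26 ≤ 2 * X ^ 1000 * X ^ 26 := mul_le_mul_of_nonneg_right hm (hp _).le
  have e4 : (m * (1 / b8) + 3 * (1 / X ^ 1090)) * (m * X ^ 26) ≤
      (2 * X ^ 1000 / X ^ 25000 + 3 * (1 / X ^ 1090)) * (2 * X ^ 1000 * X ^ 26) := by
    apply mul_le_mul _ e3 (by positivity) (by positivity)
    linarith
  have e5 : 2 * X ^ 1000 / X ^ 25000 * (2 * X ^ 1000 * X ^ 26) ≤ 4 / X ^ 51 := by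
    rw [div_mul_eq_mul_div, div_le_div_iff₀ (hp _) (hp _)]
    have : X ^ 1000 * X ^ 1000 * X ^ 26 * X ^ 51 ≤ X ^ 25000 := by
      rw [← pow_add, ← pow_add, ← pow_add]; exact pm _ _ (by norm_num)
    nlinarith
  have e6 : 3 * (1 / X ^ 1090) * (2 * X ^ 1000 * X ^ 26) ≤ 6 / X ^ 51 := by
    rw [mul_one_div, div_mul_eq_mul_div, div_le_div_iff₀ (hp _) (hp _)]
    have : X ^ 1000 * X ^ 26 * X ^ 51 ≤ X ^ 1090 := by
      rw [← pow_add, ← pow_add]; exact pm _ _ (by norm_num)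
    nlinarith
  have e7 : 12 / X ^ 51 ≤ 1 / (2 * X ^ 50) := by
    rw [div_le_div_iff₀ (hp _) (by positivity)]
    have : X ^ 51 = X ^ 50 * X := pow_succ X 50
    rw [this]
    have := hp 50
    have h12 : (24 : ℝ) ≤ X := by linarith [show (24 : ℝ) ≤ 10 ^ 6 by norm_num]
    nlinarith
  have e8 : 2 / X ^ 51 + (4 / X ^ 51 + 6 / X ^ 51) = 12 / X ^ 51 := by ring
  have e9 : 2 / X ^ 100 * X ^ 23 + (m * (1 / b8) + 3 * (1 / X ^ 1090)) * (m * X ^ 26) ≤
      1 / (2 * X ^ 50) := by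
    have : (2 * X ^ 1000 / X ^ 25000 + 3 * (1 / X ^ 1090)) * (2 * X ^ 1000 * X ^ 26) =
      2 * X ^ 1000 / X ^ 25000 * (2 * X ^ 1000 * X ^ 26) +
      3 * (1 / X ^ 1090) * (2 * X ^ 1000 * X ^ 26) := by rw [add_mul]
    linarith
  calc 2 / X ^ 100 * (X ^ 23 * bb) + (m * (1 / b8) + 3 * (1 / X ^ 1090)) * (m * X ^ 26 * bb)
      = (2 / X ^ 100 * X ^ 23 + (m * (1 / b8) + 3 * (1 / X ^ 1090)) * (m * X ^ 26)) * bb := by
        ring
    _ ≤ 1 / (2 * X ^ 50) * bb := mul_le_mul_of_nonneg_right e9 hbb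

theorem b8_ge (c : Ctx G) : c.X ^ 25000 ≤ c.b ^ (1 / 8 : ℝ) := by
  have h0 : (0 : ℝ) ≤ c.X := le_trans (by norm_num) (X_ge c)
  have h1 : c.X ^ 200000 ≤ c.b := c.hBX
  have h2 : (c.X ^ 200000) ^ (1 / 8 : ℝ) ≤ c.b ^ (1 / 8 : ℝ) :=
    Real.rpow_le_rpow (pow_nonneg h0 _) h1 (by norm_num)
  refine le_trans (le_of_eq ?_) h2
  rw [← Real.rpow_natCast c.X 200000, ← Real.rpow_mul h0, ← Real.rpow_natCast c.X 25000]
  congr 1
  norm_num

theorem ind_level {m : ℕ} [NeZero m] (D : Prop) (l : ZMod m) (f : ZMod m → ℝ) :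
    ind D * f l = ∑ i : ZMod m, ind (D ∧ l = i) * f i := by
  rw [Finset.sum_eq_single l]
  · congr 1
    by_cases h : D
    · rw [ind_of h, ind_of ⟨h, rfl⟩]
    · rw [ind_not h, ind_not (fun h' => h h'.1)]
  · intro i _ hi
    rw [ind_not (fun h' => hi h'.2.symm), zero_mul]
  · intro h
    exact absurd (Finset.mem_univ l) h

/-- rows or columns -/
theorem half (hM : MAT_S.{u}) (c : Ctx G) (m : ℕ) [NeZero m] (hm : c.mOK m) (D : G → Prop)
    (lvl : G → ZMod m) (r w : G → ℝ) (H : ZMod m → G → ℝ) (P0 : G → ℝ) (E : Finset (ZMod m))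
    (bb : ℝ) (hbb : 0 ≤ bb) (hr : ∀ x, D x → |r x| ≤ 2 / c.X ^ 100)
    (h1 : ∑ x, ind (D x) * ∑ z, UM c.B x z * |w x - H (lvl x) z| ≤ c.X ^ 23 * bb)
    (h2 : ∀ i, ∑ z, |H i z - (∑ i : ZMod m, H i z) / m| ≤ m * c.X ^ 26 * bb)
    (hP : ∀ z i, |∑ x, UM c.B z x * ind (D x ∧ lvl x = i) * r x - P0 z| ≤ 1 / c.X ^ 1090 ∧
      (i ∉ E → |∑ x, UM c.B z x * ind (D x ∧ lvl x = i) * r x - P0 z| ≤
        1 / c.b ^ (1 / 8 : ℝ)))
    (hE : E.card ≤ 3) :
    |∑ x, ind (D x) * r x * w x -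
      ∑ x, ind (D x) * r x * c.av (fun z => (∑ i : ZMod m, H i z) / m) x| ≤
      1 / (2 * c.X ^ 50) * bb := by
  classical
  obtain ⟨hDS, -, htr⟩ := (hM G).1 c.B c.hB
  have hsymm : ∀ x z, UM c.B x z = UM c.B z x := by
    intro x z
    have := congrFun (congrFun htr z) x
    rwa [Matrix.transpose_apply] at this
  have hX0 : (0 : ℝ) < c.X := lt_of_lt_of_le (by norm_num) (X_ge c)
  set mu : G → ℝ := fun z => (∑ i : ZMod m, H i z) / m with hmu
  have hm0 : (m : ℝ) ≠ 0 := Nat.cast_ne_zero.2 (NeZero.ne m)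
  -- the two parts
  set e1 : ℝ := ∑ x, ind (D x) * r x * ∑ z, UM c.B x z * (w x - H (lvl x) z) with he1
  set e2 : ℝ := ∑ x, ind (D x) * r x * ∑ z, UM c.B x z * (H (lvl x) z - mu z) with he2
  have hsplit : ∑ x, ind (D x) * r x * w x - ∑ x, ind (D x) * r x * c.av mu x = e1 + e2 := by
    rw [he1, he2, ← Finset.sum_sub_distrib, ← Finset.sum_add_distrib]
    apply Finset.sum_congr rfl
    intro x _
    have e : w x - c.av mu x = ∑ z, UM c.B x z * (w x - H (lvl x) z) +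
        ∑ z, UM c.B x z * (H (lvl x) z - mu z) := by
      rw [← Finset.sum_add_distrib]
      have : ∀ z, UM c.B x z * (w x - H (lvl x) z) + UM c.B x z * (H (lvl x) z - mu z) =
          UM c.B x z * w x - UM c.B x z * mu z := by intro z; ring
      simp only [this]
      rw [Finset.sum_sub_distrib, ← Finset.sum_mul, hDS.row, one_mul]
      rfl
    rw [← mul_sub, e, mul_add]
  rw [hsplit]
  -- bound of `e1`
  have b1 : |e1| ≤ 2 / c.X ^ 100 * (c.X ^ 23 * bb) := by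
    calc |e1| ≤ ∑ x, |ind (D x) * r x * ∑ z, UM c.B x z * (w x - H (lvl x) z)| :=
          Finset.abs_sum_le_sum_abs _ _
      _ ≤ ∑ x, 2 / c.X ^ 100 * (ind (D x) * ∑ z, UM c.B x z * |w x - H (lvl x) z|) := by
          apply Finset.sum_le_sum
          intro x _
          by_cases h : D x
          · rw [ind_of h, one_mul, one_mul, abs_mul]
            apply mul_le_mul (hr x h) _ (abs_nonneg _) (by positivity)
            refine (Finset.abs_sum_le_sum_abs _ _).trans (Finset.sum_le_sum fun z _ => ?_)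
            rw [abs_mul, abs_of_nonneg (hDS.nn x z)]
          · rw [ind_not h]; simp
      _ = 2 / c.X ^ 100 * ∑ x, ind (D x) * ∑ z, UM c.B x z * |w x - H (lvl x) z| := by
          rw [Finset.mul_sum]
      _ ≤ _ := mul_le_mul_of_nonneg_left h1 (by positivity)
  -- rewriting `e2`
  have hPe : e2 = ∑ i : ZMod m, ∑ z, (∑ x, UM c.B z x * ind (D x ∧ lvl x = i) * r x) *
      (H i z - mu z) := by
    rw [he2]
    have s1 : ∀ x, ind (D x) * r x * ∑ z, UM c.B x z * (H (lvl x) z - mu z) =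
        ∑ i : ZMod m, ∑ z, UM c.B z x * ind (D x ∧ lvl x = i) * r x * (H i z - mu z) := by
      intro x
      have := ind_level (D x) (lvl x) (fun i => r x * ∑ z, UM c.B x z * (H i z - mu z))
      rw [mul_assoc, this]
      apply Finset.sum_congr rfl
      intro i _
      rw [Finset.mul_sum, Finset.mul_sum]
      apply Finset.sum_congr rfl
      intro z _
      rw [hsymm x z]; ring
    simp only [s1]
    rw [Finset.sum_comm]
    apply Finset.sum_congr rfl
    intro i _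
    rw [Finset.sum_comm]
    apply Finset.sum_congr rfl
    intro z _
    rw [Finset.sum_mul]
  have hzero : ∀ z, ∑ i : ZMod m, (H i z - mu z) = 0 := by
    intro z
    rw [Finset.sum_sub_distrib, Finset.sum_const, Finset.card_univ, ZMod.card, nsmul_eq_mul, hmu]
    field_simp
    ring
  have hPe2 : e2 = ∑ i : ZMod m, ∑ z, ((∑ x, UM c.B z x * ind (D x ∧ lvl x = i) * r x) - P0 z) *
      (H i z - mu z) := by
    have : ∑ i : ZMod m, ∑ z, P0 z * (H i z - mu z) = 0 := by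
      rw [Finset.sum_comm]
      apply Finset.sum_eq_zero
      intro z _
      rw [← Finset.mul_sum, hzero, mul_zero]
    rw [hPe]
    simp only [sub_mul _ (P0 _), Finset.sum_sub_distrib]
    rw [this, sub_zero]
  have b2 : |e2| ≤ (m * (1 / c.b ^ (1 / 8 : ℝ)) + 3 * (1 / c.X ^ 1090)) *
      (m * c.X ^ 26 * bb) := by
    have hmb : 0 ≤ m * c.X ^ 26 * bb := by positivity
    have hb8 : 0 ≤ 1 / c.b ^ (1 / 8 : ℝ) := by
      have : 0 ≤ c.b := Nat.cast_nonneg _
      positivity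
    have hx8 : 0 ≤ 1 / c.X ^ 1090 := by positivity
    rw [hPe2]
    calc |∑ i : ZMod m, ∑ z, ((∑ x, UM c.B z x * ind (D x ∧ lvl x = i) * r x) - P0 z) *
          (H i z - mu z)|
        ≤ ∑ i : ZMod m, |∑ z, ((∑ x, UM c.B z x * ind (D x ∧ lvl x = i) * r x) - P0 z) *
          (H i z - mu z)| := Finset.abs_sum_le_sum_abs _ _
      _ ≤ ∑ i : ZMod m, (1 / c.b ^ (1 / 8 : ℝ) + (if i ∈ E then 1 / c.X ^ 1090 else 0)) *
          (m * c.X ^ 26 * bb) := by
          apply Finset.sum_le_sum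
          intro i _
          have s : ∀ z, |(∑ x, UM c.B z x * ind (D x ∧ lvl x = i) * r x) - P0 z| ≤
              1 / c.b ^ (1 / 8 : ℝ) + (if i ∈ E then 1 / c.X ^ 1090 else 0) := by
            intro z
            by_cases hi : i ∈ E
            · rw [if_pos hi]
              linarith [(hP z i).1]
            · rw [if_neg hi]
              linarith [(hP z i).2 hi]
          have s0 : 0 ≤ 1 / c.b ^ (1 / 8 : ℝ) + (if i ∈ E then 1 / c.X ^ 1090 else 0) := by
            split_ifs <;> positivity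
          calc |∑ z, ((∑ x, UM c.B z x * ind (D x ∧ lvl x = i) * r x) - P0 z) * (H i z - mu z)|
              ≤ ∑ z, |((∑ x, UM c.B z x * ind (D x ∧ lvl x = i) * r x) - P0 z) *
                (H i z - mu z)| := Finset.abs_sum_le_sum_abs _ _
            _ ≤ ∑ z, (1 / c.b ^ (1 / 8 : ℝ) + (if i ∈ E then 1 / c.X ^ 1090 else 0)) *
                |H i z - mu z| := by
                apply Finset.sum_le_sum
                intro z _
                rw [abs_mul]
                exact mul_le_mul_of_nonneg_right (s z) (abs_nonneg _)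
            _ = (1 / c.b ^ (1 / 8 : ℝ) + (if i ∈ E then 1 / c.X ^ 1090 else 0)) *
                ∑ z, |H i z - mu z| := by rw [Finset.mul_sum]
            _ ≤ _ := mul_le_mul_of_nonneg_left (h2 i) s0
      _ = (∑ i : ZMod m, (1 / c.b ^ (1 / 8 : ℝ) + (if i ∈ E then 1 / c.X ^ 1090 else 0))) *
          (m * c.X ^ 26 * bb) := by rw [Finset.sum_mul]
      _ ≤ _ := by
          apply mul_le_mul_of_nonneg_right _ hmb
          rw [Finset.sum_add_distrib, Finset.sum_const, Finset.card_univ, ZMod.card,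
            nsmul_eq_mul, Finset.sum_ite_mem, Finset.univ_inter, Finset.sum_const, nsmul_eq_mul]
          have : (E.card : ℝ) ≤ 3 := by exact_mod_cast hE
          nlinarith
  calc |e1 + e2| ≤ |e1| + |e2| := abs_add_le _ _
    _ ≤ _ := add_le_add b1 b2
    _ ≤ _ := numer c.X m (c.b ^ (1 / 8 : ℝ)) bb (X_ge c) (Nat.cast_nonneg m) hm.2 (b8_ge c) hbb

theorem bb_nonneg {c : Ctx G} {N : ℕ} (g : Gad c N) {m : ℕ} [NeZero m] (lv : G → ZMod m)
    (u v : G → ℝ) : 0 ≤ g.bb lv u v := by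
  have hX0 : (0 : ℝ) < c.X := lt_of_lt_of_le (by norm_num) (X_ge c)
  have hb : 0 ≤ c.b := Nat.cast_nonneg _
  have hB : ∀ x y, 0 ≤ g.aB lv x y := by
    intro x y
    unfold Gad.aB
    exact mul_nonneg (by positivity) (ind_nonneg _)
  have hC : ∀ x y, 0 ≤ g.aC lv x y := by
    intro x y
    unfold Gad.aC
    exact mul_nonneg (by positivity) (ind_nonneg _)
  unfold Gad.bb
  apply Finset.sum_nonneg
  intro i _
  apply add_nonneg
  · unfold Gad.bc
    exact Finset.sum_nonneg fun x _ => Finset.sum_nonneg fun y _ =>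
      mul_nonneg (mul_nonneg (ind_nonneg _) (add_nonneg (hB x y) (hC x y))) (abs_nonneg _)
  · unfold Gad.b2
    exact Finset.sum_nonneg fun x _ => Finset.sum_nonneg fun y _ =>
      mul_nonneg (mul_nonneg (ind_nonneg _) (hB x y)) (abs_nonneg _)

end

theorem psi1 (hM : MAT_S.{u}) : PSI1F_S.{u} := by
  intro G _ _ _ c N g m _ lv hm hlv u v hh
  classical
  have hX0 : (0 : ℝ) < c.X := lt_of_lt_of_le (by norm_num) (X_ge c)
  have hbb := bb_nonneg g lv u v
  obtain ⟨⟨P0, hP⟩, ⟨P0', hP'⟩⟩ := hlv.e4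
  have h1 := half hM c m hm g.RR lv (g.rx lv) u (g.Uh lv u) P0 {0, -1, -2} (g.bb lv u v) hbb
    hlv.e3.1 hh.h1 hh.h2 (by
      intro z i
      refine ⟨(hP z i).1, fun hi => (hP z i).2 ?_ ?_ ?_⟩
      · rintro rfl; simp at hi
      · rintro rfl; simp at hi
      · rintro rfl; simp at hi) (Finset.card_le_three)
  have h2 := half hM c m hm g.CC (fun y => lv y - 1) (g.ry lv) v (g.Vh lv v) P0' {0, 1, -1}
    (g.bb lv u v) hbb hlv.e3.2 hh.h1' hh.h2' (by
      intro z i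
      have e : ∀ x, ind (g.CC x ∧ lv x - 1 = i) = ind (g.CC x ∧ lv x = i + 1) := by
        intro x
        rw [sub_eq_iff_eq_add]
      simp only [e]
      refine ⟨(hP' z i).1, fun hi => (hP' z i).2 ?_ ?_ ?_⟩
      · rintro rfl; simp at hi
      · rintro rfl; simp at hi
      · rintro rfl; simp at hi) (Finset.card_le_three)
  have e : g.Psi lv u v - g.E3 lv (c.av (g.Um lv u)) (c.av (g.Vm lv v)) =
      (∑ x, ind (g.RR x) * g.rx lv x * u x -
        ∑ x, ind (g.RR x) * g.rx lv x * c.av (fun z => (∑ i : ZMod m, g.Uh lv u i z) / m) x) -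
      (∑ x, ind (g.CC x) * g.ry lv x * v x -
        ∑ x, ind (g.CC x) * g.ry lv x * c.av (fun z => (∑ i : ZMod m, g.Vh lv v i z) / m) x) := by
    unfold Gad.Psi Gad.E3
    have a1 : g.Um lv u = fun z => (∑ i : ZMod m, g.Uh lv u i z) / m := rfl
    have a2 : g.Vm lv v = fun z => (∑ i : ZMod m, g.Vh lv v i z) / m := rfl
    rw [a1, a2]
    ring
  rw [e]
  refine (abs_sub _ _).trans ?_
  have h3 : 1 / (2 * c.X ^ 50) * g.bb lv u v + 1 / (2 * c.X ^ 50) * g.bb lv u v =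
      1 / c.X ^ 50 * g.bb lv u v := by
    field_simp
    ring
  linarith

end Pool.Agent.Lib.MP_688fd0_co.TF.H63
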